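import Pool.Agent.Q151.ESJ.J3E
import Pool.Agent.Q177.ESG.GDJ
import Pool.Agent.Q151.ESG.Embw
import Pool.Agent.Q153.ESN.FRX
import Pool.Agent.Q149.ESM.ZEXa

/-!
# Job GDJ of project ESJ (helper161): the local conditions over a number field
(adapted from `Pool/Agent/Q177/ESG/GDJ.lean`)
-/

set_option autoImplicit false
set_option linter.unusedSectionVars false
set_option linter.style.haveILetI false

namespace Pool.Agent.Q149.ESJ

open Polynomial NumberField IsDedekindDomain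
open Pool.Agent.Q51.EL (Abv Par)
open Pool.Agent.Q161.ESJ
open Pool.Agent.Q161.ESM (QR)
open Pool.Agent.Q161.ESN (Ov Fb SqF Gd1 iO cp uu)
open Pool.Agent.Q177.ESG.GDJ (IP norm_ip fixed_all val_exp l_gt ip_of norm_of_one par_even par_odd zmod_two qr_of)
open Pool.Agent.Q151.ESJ (map_fx eval_fx mem_rts)

/-! ### The fields -/

section rt

variable {l : ℕ} [Fact l.Prime] {F K L : Type} [Field F] [NumberField F] [Field K] [NumberField K] [Algebra F K]
  [Field L] [NumberField L] [Algebra F L] {H : HP F} {th : 𝓞 L}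

variable (F) in
/-- the closure of `F` -/
noncomputable abbrev EF (ψ : K →+* PadicAlgCl l) : IntermediateField ℚ_[l] (PadicAlgCl l) :=
  IntermediateField.adjoin ℚ_[l] (Set.range fun x : F => ψ (algebraMap F K x))

theorem ga_of {ψ : K →+* PadicAlgCl l} {τ : PadicAlgCl l ≃ₐ[ℚ_[l]] PadicAlgCl l}
    (h : ∀ x : F, τ (ψ (algebraMap F K x)) = ψ (algebraMap F K x)) : Ga (EF F ψ) τ := by
  intro c hc
  induction hc using IntermediateField.adjoin_induction with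
  | mem x hx =>
    obtain ⟨y, rfl⟩ := hx
    exact h y
  | algebraMap x => exact τ.commutes x
  | add x y _ _ hx hy => rw [map_add, hx, hy]
  | inv x _ hx => rw [map_inv₀, hx]
  | mul x y _ _ hx hy => rw [map_mul, hx, hy]

theorem mem_EF (ψ : K →+* PadicAlgCl l) (x : F) : ψ (algebraMap F K x) ∈ EF F ψ :=
  IntermediateField.subset_adjoin _ _ ⟨x, rfl⟩

/-- the polynomial `h` in `Ω` -/
noncomputable def fp (H : HP F) (ψ : K →+* PadicAlgCl l) : (PadicAlgCl l)[X] :=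
  H.pol.map (ψ.comp (algebraMap F K))

theorem fp_monic (H : HP F) (ψ : K →+* PadicAlgCl l) : (fp H ψ).Monic := H.monic.map _

theorem fx_map {R : Type} [Semiring R] (p : R[X]) (g : R →+* PadicAlgCl l)
    {E : IntermediateField ℚ_[l] (PadicAlgCl l)} (h : ∀ a, g a ∈ E) : Fx E (p.map g) := by
  intro τ hτ i
  rw [coeff_map]
  exact hτ _ (h _)

/-- the zero of `h` given by the embedding `ι` -/
noncomputable def zt (th : 𝓞 L) (ψ : K →+* PadicAlgCl l) (ι : L →ₐ[F] K) : PadicAlgCl l := ψ (ι (th : L))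

theorem eval_emb (ψ : K →+* PadicAlgCl l) (ι : L →ₐ[F] K) (p : F[X]) (y : L) :
    (p.map (ψ.comp (algebraMap F K))).eval (ψ (ι y)) = ψ (ι (aeval y p)) := by
  rw [eval_map, aeval_def, ← AlgHom.coe_toRingHom ι, ← RingHom.comp_apply, ← RingHom.comp_apply, hom_eval₂,
    RingHom.comp_assoc, AlgHom.comp_algebraMap]

theorem hom_ext (hs : SetF H L (th : L)) {ι ι' : L →ₐ[F] K} (h : ι (th : L) = ι' (th : L)) : ι = ι' := by
  haveI : IsScalarTower ℚ F L := IsScalarTower.of_algebraMap_eq' (Subsingleton.elim _ _)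
  haveI : FiniteDimensional F L := Module.Finite.of_restrictScalars_finite ℚ F L
  have h1 : minpoly F (th : L) = H.pol := (minpoly.eq_of_irreducible_of_monic hs.irr hs.root H.monic).symm
  have h2 : IntermediateField.adjoin F {(th : L)} = ⊤ := by
    rw [Field.primitive_element_iff_minpoly_natDegree_eq, h1, hs.deg]
  have h3 : Algebra.adjoin F {(th : L)} = ⊤ := by
    rw [← IntermediateField.adjoin_simple_toSubalgebra_of_isAlgebraic (Algebra.IsAlgebraic.isAlgebraic (th : L)), h2,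
      IntermediateField.top_toSubalgebra]
  refine AlgHom.ext_of_adjoin_eq_top h3 ?_
  intro x hx
  rw [Set.mem_singleton_iff] at hx
  rw [hx]
  exact h

theorem X_inj (hs : SetF H L (th : L)) (ψ : K →+* PadicAlgCl l) :
    Function.Injective (zt (F := F) th ψ) := by
  intro ι ι' h
  exact hom_ext hs (ψ.injective h)

theorem X_mem (hs : SetF H L (th : L)) (ψ : K →+* PadicAlgCl l) (ι : L →ₐ[F] K) :
    zt th ψ ι ∈ rts (fp H ψ) := by
  rw [mem_rts (fp_monic H ψ), IsRoot.def]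
  unfold zt fp
  rw [eval_emb, hs.root, map_zero, map_zero]

theorem gal_FK [IsGalois ℚ K] : IsGalois F K := by
  haveI : IsScalarTower ℚ F K := IsScalarTower.of_algebraMap_eq' (Subsingleton.elim _ _)
  exact IsGalois.tower_top_of_isGalois ℚ F K

theorem card_emb [IsGalois ℚ K] (hne : Nonempty (L →ₐ[F] K)) :
    Nat.card (L →ₐ[F] K) = Module.finrank F L := by
  obtain ⟨φ⟩ := hne
  haveI : IsGalois F K := gal_FK
  haveI : IsScalarTower ℚ F L := IsScalarTower.of_algebraMap_eq' (Subsingleton.elim _ _)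
  haveI : FiniteDimensional F L := Module.Finite.of_restrictScalars_finite ℚ F L
  exact AlgHom.natCard_of_splits F L K (fun x => by
    rw [← minpoly.algHom_eq φ φ.injective x]
    exact Normal.splits inferInstance _)

open Classical in
theorem rts_eq [IsGalois ℚ K] (hne : Nonempty (L →ₐ[F] K)) (hs : SetF H L (th : L))
    (ψ : K →+* PadicAlgCl l) : rts (fp H ψ) = Finset.univ.image (zt (F := F) th ψ) := by
  symm
  refine Finset.eq_of_subset_of_card_le ?_ ?_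
  · intro x hx
    rw [Finset.mem_image] at hx
    obtain ⟨ι, -, rfl⟩ := hx
    exact X_mem hs ψ ι
  · rw [Finset.card_image_of_injective _ (X_inj hs ψ), Finset.card_univ, ← Nat.card_eq_fintype_card,
      card_emb hne, hs.deg]
    have h1 : (rts (fp H ψ)).card ≤ Multiset.card (fp H ψ).roots := Multiset.toFinset_card_le _
    refine h1.trans ((card_roots' _).trans ?_)
    unfold fp
    exact natDegree_map_le

theorem exists_X [IsGalois ℚ K] (hne : Nonempty (L →ₐ[F] K)) (hs : SetF H L (th : L))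
    (ψ : K →+* PadicAlgCl l) {x : PadicAlgCl l} (hx : x ∈ rts (fp H ψ)) : ∃ ι : L →ₐ[F] K, zt th ψ ι = x := by
  classical
  rw [rts_eq hne hs ψ, Finset.mem_image] at hx
  obtain ⟨ι, -, h⟩ := hx
  exact ⟨ι, h⟩

/-- integral elements have norm at most one -/
theorem norm_int {w : HeightOneSpectrum (𝓞 K)} {ψ : K →+* PadicAlgCl l} (hN : Nm w ψ) (x : 𝓞 K) :
    ‖ψ (x : K)‖ ≤ 1 := by
  by_cases hx : (x : K) = 0
  · rw [hx, map_zero, norm_zero]
    exact zero_le_one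
  · obtain ⟨m, hm⟩ := val_exp w hx
    rw [hN _ m hm]
    have h1 : w.valuation K (x : K) ≤ 1 := w.valuation_le_one x
    rw [hm] at h1
    have h2 : (1 : WithZero (Multiplicative ℤ)) = WithZero.exp 0 := rfl
    rw [h2, WithZero.exp_le_exp] at h1
    rw [← zpow_zero (l : ℝ)]
    exact zpow_le_zpow_right₀ l_gt.le h1

theorem gl [IsGalois ℚ K] (hne : Nonempty (L →ₐ[F] K)) (hs : SetF H L (th : L))
    {w : HeightOneSpectrum (𝓞 K)} {ψ : K →+* PadicAlgCl l} (hN : Nm w ψ)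
    (hv : ∀ c ∈ EF F ψ, c ≠ 0 → ∃ m : ℤ, ‖c‖ = (l : ℝ) ^ m)
    (hd : ∀ ι ι' : L →ₐ[F] K, ι ≠ ι' → ‖ψ (ι (th : L) - ι' (th : L))‖ = 1) : Gl (EF F ψ) (fp H ψ) where
  val := hv
  monic := fp_monic H ψ
  odd := by
    unfold fp
    rw [H.monic.natDegree_map]
    exact H.odd
  sep := by
    unfold fp
    exact hs.irr.separable.map
  fx := fx_map _ _ fun a => mem_EF ψ a
  int := by
    intro x hx
    obtain ⟨ι, rfl⟩ := exists_X hne hs ψ hx
    exact norm_int hN (RingOfIntegers.mapRingHom (ι : L →+* K) th)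
  dist := by
    intro x hx y hy hxy
    obtain ⟨ι, rfl⟩ := exists_X hne hs ψ hx
    obtain ⟨ι', rfl⟩ := exists_X hne hs ψ hy
    have h1 : ι ≠ ι' := by
      rintro rfl
      exact hxy rfl
    rw [← hd ι ι' h1, map_sub]
    rfl

/-- the local condition in `Ω` -/
theorem loc_map {ψ : K →+* PadicAlgCl l} {Kv : Type} [Field Kv] [Algebra F Kv] (j : Kv →+* PadicAlgCl l)
    (hj : ∀ x : F, j (algebraMap F Kv x) = ψ (algebraMap F K x)) (hE : ∀ a, j a ∈ EF F ψ) {D : F} {d : F[X]}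
    (h : LocX (H.twist D) Kv d) :
    ∃ u v G : (PadicAlgCl l)[X], Fx (EF F ψ) u ∧ Fx (EF F ψ) v ∧ Fx (EF F ψ) G ∧ u.Monic ∧
      u ∣ (fp H ψ).scaleRoots (ψ (algebraMap F K D)) - v ^ 2 ∧
      IsCoprime u ((fp H ψ).scaleRoots (ψ (algebraMap F K D))) ∧
      (fp H ψ).scaleRoots (ψ (algebraMap F K D)) ∣
        C ((-1) ^ u.natDegree) * u * d.map (ψ.comp (algebraMap F K)) - G ^ 2 := by
  obtain ⟨u, v, G, hu, huv, hcop, hdiv⟩ := h
  have hjc : j.comp (algebraMap F Kv) = ψ.comp (algebraMap F K) := RingHom.ext hj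
  have hp : (pol (H.twist D) Kv).map j = (fp H ψ).scaleRoots (ψ (algebraMap F K D)) := by
    unfold pol HP.twist fp
    rw [Polynomial.map_map, hjc, Polynomial.map_scaleRoots]
    · rfl
    · rw [H.monic.leadingCoeff, map_one]
      exact one_ne_zero
  refine ⟨u.map j, v.map j, G.map j, fx_map _ _ hE, fx_map _ _ hE, fx_map _ _ hE, hu.map j, ?_, ?_, ?_⟩
  · have h1 := Polynomial.map_dvd j huv
    rwa [Polynomial.map_sub, Polynomial.map_pow, hp] at h1
  · have h1 := hcop.map (Polynomial.mapRingHom j)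
    rwa [coe_mapRingHom, hp] at h1
  · have h1 := Polynomial.map_dvd j hdiv
    rw [Polynomial.map_sub, Polynomial.map_pow, Polynomial.map_mul, Polynomial.map_mul, hp, Polynomial.map_map, hjc,
      map_C, map_pow, map_neg, map_one] at h1
    rw [natDegree_map]
    exact h1

theorem loc_eval (hs : SetF H L (th : L)) {ψ : K →+* PadicAlgCl l} {D : F} {d : F[X]} {δ : L}
    (hd : aeval (algebraMap F L D * (th : L)) d = δ) {u G : (PadicAlgCl l)[X]}
    (h : (fp H ψ).scaleRoots (ψ (algebraMap F K D)) ∣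
        C ((-1) ^ u.natDegree) * u * d.map (ψ.comp (algebraMap F K)) - G ^ 2) (ι : L →ₐ[F] K) :
    (-1) ^ u.natDegree * u.eval (ψ (algebraMap F K D) * zt th ψ ι) * ψ (ι δ) =
      G.eval (ψ (algebraMap F K D) * zt th ψ ι) ^ 2 := by
  obtain ⟨q, hq⟩ := h
  have h0 : ((fp H ψ).scaleRoots (ψ (algebraMap F K D))).eval (ψ (algebraMap F K D) * zt th ψ ι) = 0 := by
    have h1 := X_mem hs ψ ι
    rw [mem_rts (fp_monic H ψ), IsRoot.def] at h1
    rw [scaleRoots_eval_mul, h1, mul_zero]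
  have h1 := congrArg (Polynomial.eval (ψ (algebraMap F K D) * zt th ψ ι)) hq
  rw [eval_mul, h0, zero_mul, eval_sub, eval_mul, eval_mul, eval_C, eval_pow, sub_eq_zero] at h1
  have h2 : (d.map (ψ.comp (algebraMap F K))).eval (ψ (algebraMap F K D) * zt th ψ ι) = ψ (ι δ) := by
    have h3 : ψ (algebraMap F K D) * zt th ψ ι = ψ (ι (algebraMap F L D * (th : L))) := by
      unfold zt
      rw [map_mul, map_mul, ι.commutes]
    rw [h3, eval_emb, hd]
  rw [h2] at h1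
  exact h1

end rt

/-! ### The primes not dividing `D` -/

section parts

variable {l : ℕ} [Fact l.Prime] {F K L : Type} [Field F] [NumberField F] [Field K] [NumberField K] [Algebra F K]
  [Field L] [NumberField L] [Algebra F L] {H : HP F} {th : 𝓞 L} {w : HeightOneSpectrum (𝓞 K)}
  {ψ : K →+* PadicAlgCl l}

theorem even_part (hl2 : l ≠ 2) (hE : S_J3E) (hgl : Gl (EF F ψ) (fp H ψ)) {D : F}
    (hD : ‖ψ (algebraMap F K D)‖ = 1)
    (hs : SetF H L (th : L)) (hN : Nm w ψ) {d : F[X]} {δ : L} (hδ : δ ≠ 0)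
    (hd : aeval (algebraMap F L D * (th : L)) d = δ)
    (hloc : ∃ u v G : (PadicAlgCl l)[X], Fx (EF F ψ) u ∧ Fx (EF F ψ) v ∧ Fx (EF F ψ) G ∧ u.Monic ∧
      u ∣ (fp H ψ).scaleRoots (ψ (algebraMap F K D)) - v ^ 2 ∧
      IsCoprime u ((fp H ψ).scaleRoots (ψ (algebraMap F K D))) ∧
      (fp H ψ).scaleRoots (ψ (algebraMap F K D)) ∣
        C ((-1) ^ u.natDegree) * u * d.map (ψ.comp (algebraMap F K)) - G ^ 2)
    (ι : L →ₐ[F] K) : Par w (ι δ) 0 := by
  obtain ⟨u, v, G, fu, fv, fG, hu, huv, hcop, hdiv⟩ := hloc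
  obtain ⟨c, s, hs1, hs2⟩ := hE l hl2 _ _ hgl _ (mem_EF ψ D) hD u v fu fv hu huv hcop
  have hx := X_mem hs ψ ι
  obtain ⟨a1, a2, a3⟩ := hs2 _ hx
  have e1 := loc_eval hs hd hdiv ι
  rw [a3] at e1
  have hδ' : ψ (ι δ) ≠ 0 := (map_ne_zero ψ).2 ((map_ne_zero ι).2 hδ)
  have hc : c (zt th ψ ι) ≠ 0 := by
    intro h
    rw [h, norm_zero] at a1
    exact zero_ne_one a1
  have e2 : (G.eval (ψ (algebraMap F K D) * zt th ψ ι) / s (zt th ψ ι)) ^ 2 = c (zt th ψ ι) * ψ (ι δ) := by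
    rw [div_pow, ← e1]
    field_simp
  have hr0 : G.eval (ψ (algebraMap F K D) * zt th ψ ι) / s (zt th ψ ι) ≠ 0 := by
    intro h
    rw [h] at e2
    exact mul_ne_zero hc hδ' (by rw [← e2]; norm_num)
  have hfix : ∀ τ : PadicAlgCl l ≃ₐ[ℚ_[l]] PadicAlgCl l, (∀ y : K, τ (ψ y) = ψ y) →
      τ (G.eval (ψ (algebraMap F K D) * zt th ψ ι) / s (zt th ψ ι)) =
        G.eval (ψ (algebraMap F K D) * zt th ψ ι) / s (zt th ψ ι) := by
    intro τ hτ
    have hga : Ga (EF F ψ) τ := ga_of fun x => hτ _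
    have h1 : τ (zt th ψ ι) = zt th ψ ι := hτ _
    have h2 : τ (ψ (algebraMap F K D) * zt th ψ ι) = ψ (algebraMap F K D) * zt th ψ ι := by
      rw [map_mul, hτ, h1]
    rw [map_div₀, ← hs1 τ hga _ hx, ← eval_fx fG hga, h1, h2]
  refine par_even (fun x m h => hN x m h) ((map_ne_zero ι).2 hδ)
    (norm_ip ψ (fun y hy => ip_of (fun x m h => hN x m h) hy) _ hr0 hfix) ?_
  rw [← norm_pow, e2, norm_mul, a1, one_mul]

/-! ### The primes dividing `D` -/

open Classical in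
theorem prod_eq [IsGalois ℚ K] (hne : Nonempty (L →ₐ[F] K)) (hs : SetF H L (th : L))
    (ψ : K →+* PadicAlgCl l) (e : PadicAlgCl l → ZMod 2) (a : ZMod 2) (ι : L →ₐ[F] K) :
    ψ (∏ ι' ∈ Finset.univ.filter (fun ι' : L →ₐ[F] K => e (zt th ψ ι') = a), (ι (th : L) - ι' (th : L))) =
      ∏ y ∈ (rts (fp H ψ)).filter (fun y => e y = a), (zt th ψ ι - y) := by
  rw [rts_eq hne hs ψ, Finset.filter_image, Finset.prod_image (fun _ _ _ _ h => X_inj hs ψ h),
    map_prod]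
  refine Finset.prod_congr rfl ?_
  intro ι' _
  rw [map_sub]
  rfl

theorem uu_eq [IsGalois ℚ K] (hne : Nonempty (L →ₐ[F] K)) (hs : SetF H L (th : L))
    (ψ : K →+* PadicAlgCl l) (e : PadicAlgCl l → ZMod 2) (ι : L →ₐ[F] K) :
    ψ (uu th (fun ι => e (zt th ψ ι)) ι) = uO (fp H ψ) e (zt th ψ ι) := by
  unfold uu uO
  split_ifs with h
  · exact prod_eq hne hs ψ e 1 ι
  · rw [map_neg]
    congr 1
    exact prod_eq hne hs ψ e 0 ι

theorem norm_uO {E : IntermediateField ℚ_[l] (PadicAlgCl l)} {f : (PadicAlgCl l)[X]} (hgl : Gl E f)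
    (e : PadicAlgCl l → ZMod 2) {x : PadicAlgCl l} (hx : x ∈ rts f) : ‖uO f e x‖ = 1 := by
  unfold uO
  split_ifs with h
  · rw [norm_prod]
    refine Finset.prod_eq_one fun y hy => ?_
    rw [Finset.mem_filter] at hy
    refine hgl.dist x hx y hy.1 ?_
    rintro rfl
    rw [h] at hy
    exact absurd hy.2 (by decide)
  · rw [norm_neg, norm_prod]
    refine Finset.prod_eq_one fun y hy => ?_
    rw [Finset.mem_filter] at hy
    refine hgl.dist x hx y hy.1 ?_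
    rintro rfl
    exact h hy.2

/-- the square roots -/
noncomputable def Mf (D : PadicAlgCl l) (u G : (PadicAlgCl l)[X]) (s : PadicAlgCl l → PadicAlgCl l)
    (x : PadicAlgCl l) : PadicAlgCl l := G.eval (D * x) * s x / ((-1) ^ u.natDegree * u.eval (D * x))

theorem Mf_tau {E : IntermediateField ℚ_[l] (PadicAlgCl l)} {D : PadicAlgCl l} {u G : (PadicAlgCl l)[X]}
    (fu : Fx E u) (fG : Fx E G) (hD : D ∈ E) {s : PadicAlgCl l → PadicAlgCl l}
    {τ : PadicAlgCl l ≃ₐ[ℚ_[l]] PadicAlgCl l} (hτ : Ga E τ) {x : PadicAlgCl l} (h : s (τ x) = τ (s x)) :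
    Mf D u G s (τ x) = τ (Mf D u G s x) := by
  unfold Mf
  have h1 : D * τ x = τ (D * x) := by
    rw [map_mul, hτ D hD]
  rw [h, h1, eval_fx fu hτ, eval_fx fG hτ, map_div₀, map_mul, map_mul, map_pow, map_neg, map_one]

theorem Mf_sq {D : PadicAlgCl l} {u G : (PadicAlgCl l)[X]} {s : PadicAlgCl l → PadicAlgCl l}
    {x y c : PadicAlgCl l}
    (h1 : (-1) ^ u.natDegree * u.eval (D * x) * y = G.eval (D * x) ^ 2)
    (h2 : (-1) ^ u.natDegree * u.eval (D * x) * c = s x ^ 2) (h3 : s x ≠ 0) :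
    Mf D u G s x ^ 2 = y * c := by
  unfold Mf
  have h4 : (-1) ^ u.natDegree * u.eval (D * x) ≠ 0 := by
    intro h
    rw [h, zero_mul] at h2
    exact h3 (pow_eq_zero_iff (two_ne_zero)|>.1 h2.symm)
  rw [div_pow, mul_pow, ← h1, ← h2, div_eq_iff (pow_ne_zero 2 h4)]
  ring

theorem cp_mul (g g' : K ≃ₐ[F] K) (ι : L →ₐ[F] K) : cp (g * g') ι = cp g (cp g' ι) := rfl

/-- composition with an automorphism -/
def cpE (g : K ≃ₐ[F] K) : (L →ₐ[F] K) ≃ (L →ₐ[F] K) where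
  toFun := cp g
  invFun := cp g⁻¹
  left_inv := fun ι => by
    rw [← cp_mul, inv_mul_cancel]
    rfl
  right_inv := fun ι => by
    rw [← cp_mul, mul_inv_cancel]
    rfl

theorem cp_pow_mem {φ : K ≃ₐ[F] K} {A : Finset (L →ₐ[F] K)} (hA : ∀ ι, ι ∈ A ↔ cp φ ι ∈ A) (i : ℕ)
    (ι : L →ₐ[F] K) : ι ∈ A ↔ cp (φ ^ i) ι ∈ A := by
  induction i with
  | zero => rw [pow_zero]; rfl
  | succ i ih => rw [pow_succ', cp_mul, ← hA, ← ih]

/-- the powers of the restriction of scalars -/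
theorem pow_restr (φ : K ≃ₐ[F] K) (φ' : K ≃ₐ[ℚ] K) (h : ∀ x, φ' x = φ x) (i : ℕ) (x : K) :
    (φ' ^ i) x = (φ ^ i) x := by
  induction i with
  | zero => rfl
  | succ i ih =>
    rw [pow_succ', pow_succ', AlgEquiv.mul_apply, AlgEquiv.mul_apply, ih, h]

open Classical in
theorem odd_part [IsGalois ℚ K] (hl2 : l ≠ 2) (hJ : S_J3) (hgl : Gl (EF F ψ) (fp H ψ)) {D : F}
    (hD : ‖ψ (algebraMap F K D)‖ = (l : ℝ) ^ (-1 : ℤ)) (hne : Nonempty (L →ₐ[F] K))
    (hs : SetF H L (th : L)) (hN : Nm w ψ) {d : F[X]} {δ : L} (hδ : δ ≠ 0)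
    (hd : aeval (algebraMap F L D * (th : L)) d = δ)
    (hloc : ∃ u v G : (PadicAlgCl l)[X], Fx (EF F ψ) u ∧ Fx (EF F ψ) v ∧ Fx (EF F ψ) G ∧ u.Monic ∧
      u ∣ (fp H ψ).scaleRoots (ψ (algebraMap F K D)) - v ^ 2 ∧
      IsCoprime u ((fp H ψ).scaleRoots (ψ (algebraMap F K D))) ∧
      (fp H ψ).scaleRoots (ψ (algebraMap F K D)) ∣
        C ((-1) ^ u.natDegree) * u * d.map (ψ.comp (algebraMap F K)) - G ^ 2)
    (hT : ∀ φ : K ≃ₐ[F] K, Fb w l φ → ∀ τ : PadicAlgCl l ≃ₐ[ℚ_[l]] PadicAlgCl l,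
      ∃ i : ℕ, ∀ x : K, τ (ψ x) = ψ ((φ ^ i) x))
    (hV : ∀ φ : K ≃ₐ[F] K, Fb w l φ → ∀ x : K, w.valuation K (φ x) = w.valuation K x) :
    ∃ e : (L →ₐ[F] K) → ZMod 2, ∑ ι, e ι = 0 ∧
      (∀ ι, (e ι = 0 → Par w (ι δ) 0) ∧ (e ι = 1 → Par w (ι δ) 1)) ∧
      ∀ φ : K ≃ₐ[F] K, Fb w l φ → (∀ ι, e (cp φ ι) = e ι) ∧
        ∀ A : Finset (L →ₐ[F] K), (∀ ι, ι ∈ A ↔ cp φ ι ∈ A) →
          QR w l (∏ ι ∈ A, ι δ * (if e ι = 1 then algebraMap F K D else 1) * uu th e ι) := by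
  obtain ⟨u, v, G, fu, fv, fG, hu, huv, hcop, hdiv⟩ := hloc
  obtain ⟨e, s, hsum, hs1, hs2⟩ := hJ l hl2 _ _ hgl _ (mem_EF ψ D) hD u v fu fv hu huv hcop
  have hδ' : ∀ ι : L →ₐ[F] K, ι δ ≠ 0 := fun ι => (map_ne_zero ι).2 hδ
  have hD0 : ψ (algebraMap F K D) ≠ 0 := by
    intro h
    rw [h, norm_zero] at hD
    have h2 := l_gt (l := l)
    have h3 : (0 : ℝ) < (l : ℝ) ^ (-1 : ℤ) := by positivity
    rw [← hD] at h3
    exact lt_irrefl _ h3
  -- the square roots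
  have hM : ∀ ι : L →ₐ[F] K, Mf (ψ (algebraMap F K D)) u G s (zt th ψ ι) ^ 2 = ψ (ι δ *
      (if e (zt th ψ ι) = 1 then algebraMap F K D else 1) *
        uu th (fun ι => e (zt th ψ ι)) ι) := by
    intro ι
    have hx := X_mem hs ψ ι
    have e1 := loc_eval hs hd hdiv ι
    have e2 := (hs2 _ hx).2
    rw [mul_assoc] at e2
    rw [Mf_sq e1 e2 (hs2 _ hx).1, map_mul, map_mul, uu_eq hne hs ψ e ι, mul_assoc]
    congr 2
    split_ifs
    · rfl
    · rw [map_one]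
  have hM0 : ∀ ι : L →ₐ[F] K, Mf (ψ (algebraMap F K D)) u G s (zt th ψ ι) ≠ 0 := by
    intro ι h
    have h1 := hM ι
    have hx := X_mem hs ψ ι
    rw [h, map_mul, map_mul, uu_eq hne hs ψ e ι] at h1
    have h2 : uO (fp H ψ) e (zt th ψ ι) ≠ 0 := by
      intro h3
      have h4 := norm_uO hgl e hx
      rw [h3, norm_zero] at h4
      exact zero_ne_one h4
    have h3 : ψ (if e (zt th ψ ι) = 1 then algebraMap F K D else 1) ≠ 0 := by
      split_ifs
      · exact hD0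
      · rw [map_one]
        exact one_ne_zero
    exact mul_ne_zero (mul_ne_zero ((map_ne_zero ψ).2 (hδ' ι)) h3) h2 (by rw [← h1]; norm_num)
  have hMt : ∀ (τ : PadicAlgCl l ≃ₐ[ℚ_[l]] PadicAlgCl l), Ga (EF F ψ) τ → ∀ (ι : L →ₐ[F] K),
      Mf (ψ (algebraMap F K D)) u G s (τ (zt th ψ ι)) = τ (Mf (ψ (algebraMap F K D)) u G s (zt th ψ ι)) :=
    fun τ hτ ι => Mf_tau fu fG (mem_EF ψ D) hτ (hs1 τ hτ _ (X_mem hs ψ ι)).2
  have hMn : ∀ ι : L →ₐ[F] K, IP l ‖Mf (ψ (algebraMap F K D)) u G s (zt th ψ ι)‖ := by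
    intro ι
    refine norm_ip ψ (fun y hy => ip_of (fun x m h => hN x m h) hy) _ (hM0 ι) fun τ hτ => ?_
    have h1 : τ (zt th ψ ι) = zt th ψ ι := hτ _
    rw [← hMt τ (ga_of fun x => hτ _), h1]
  have hMs : ∀ ι : L →ₐ[F] K, ‖Mf (ψ (algebraMap F K D)) u G s (zt th ψ ι)‖ ^ 2 = ‖ψ (ι δ)‖ *
      (if e (zt th ψ ι) = 1 then (l : ℝ) ^ (-1 : ℤ) else 1) := by
    intro ι
    rw [← norm_pow, hM, map_mul, map_mul, norm_mul, norm_mul, uu_eq hne hs ψ e ι,
      norm_uO hgl e (X_mem hs ψ ι), mul_one]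
    congr 1
    split_ifs
    · exact hD
    · rw [map_one, norm_one]
  have hpar : ∀ ι : L →ₐ[F] K, (e (zt th ψ ι) = 0 → Par w (ι δ) 0) ∧
      (e (zt th ψ ι) = 1 → Par w (ι δ) 1) := by
    intro ι
    constructor
    · intro h
      have h1 := hMs ι
      rw [if_neg (by rw [h]; decide), mul_one] at h1
      exact par_even (fun x m h => hN x m h) (hδ' ι) (hMn ι) h1.symm
    · intro h
      have h1 := hMs ι
      rw [if_pos h] at h1
      exact par_odd (fun x m h => hN x m h) (hδ' ι) (hMn ι) h1.symm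
  refine ⟨fun ι => e (zt th ψ ι), ?_, hpar, ?_⟩
  · rw [rts_eq hne hs ψ, Finset.sum_image (fun _ _ _ _ h => X_inj hs ψ h)] at hsum
    exact hsum
  intro φ hφ
  constructor
  · intro ι
    have hv : w.valuation K (cp φ ι δ) = w.valuation K (ι δ) := hV φ hφ (ι δ)
    rcases zmod_two (e (zt th ψ ι)) with h | h <;> rcases zmod_two (e (zt th ψ (cp φ ι))) with h' | h'
    · show e (zt th ψ (cp φ ι)) = e (zt th ψ ι)
      rw [h, h']
    · obtain ⟨k, hk⟩ := (hpar ι).1 h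
      obtain ⟨k', hk'⟩ := (hpar (cp φ ι)).2 h'
      rw [hv, hk, WithZero.exp_inj] at hk'
      omega
    · obtain ⟨k, hk⟩ := (hpar ι).2 h
      obtain ⟨k', hk'⟩ := (hpar (cp φ ι)).1 h'
      rw [hv, hk, WithZero.exp_inj] at hk'
      omega
    · show e (zt th ψ (cp φ ι)) = e (zt th ψ ι)
      rw [h, h']
  · intro A hA
    have hfix : ∀ τ : PadicAlgCl l ≃ₐ[ℚ_[l]] PadicAlgCl l,
        τ (∏ ι ∈ A, Mf (ψ (algebraMap F K D)) u G s (zt th ψ ι)) =
          ∏ ι ∈ A, Mf (ψ (algebraMap F K D)) u G s (zt th ψ ι) := by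
      intro τ
      obtain ⟨i, hi⟩ := hT φ hφ τ
      have hga : Ga (EF F ψ) τ := ga_of fun x => by
        rw [hi, (φ ^ i).commutes]
      rw [map_prod]
      refine Finset.prod_equiv (cpE (φ ^ i)) (fun ι => cp_pow_mem hA i ι) fun ι _ => ?_
      rw [← hMt τ hga]
      congr 1
      exact hi _
    obtain ⟨a, ha⟩ := fixed_all _ hfix
    have ha0 : a ≠ 0 := by
      rintro rfl
      rw [map_zero] at ha
      exact Finset.prod_ne_zero_iff.2 (fun ι _ => hM0 ι) ha.symm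
    refine qr_of hl2 (fun x m h => hN x m h) ha0 ?_
    rw [ha, ← Finset.prod_pow, map_prod]
    exact Finset.prod_congr rfl fun ι _ => (hM ι).symm

/-! ### The bad primes -/

/-- the differences of the conjugates -/
noncomputable def df (th : 𝓞 L) (ι ι' : L →ₐ[F] K) : 𝓞 K :=
  RingOfIntegers.mapRingHom (ι : L →+* K) th - RingOfIntegers.mapRingHom (ι' : L →+* K) th

theorem df_ne (hs : SetF H L (th : L)) {ι ι' : L →ₐ[F] K} (h : ι ≠ ι') : df th ι ι' ≠ 0 := by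
  intro h1
  apply h
  have h2 : ι (th : L) = ι' (th : L) := by
    have h3 := sub_eq_zero.1 h1
    exact congrArg (fun z : 𝓞 K => (z : K)) h3
  exact hom_ext hs h2

theorem exists_B [IsGalois ℚ K] (hs : SetF H L (th : L)) : ∃ B : ℕ, B ≠ 0 ∧ ∀ l : ℕ, l.Prime →
    ¬ l ∣ B → l ≠ 2 ∧ Squarefree (Ideal.span {(l : 𝓞 K)}) ∧
      (∀ w : HeightOneSpectrum (𝓞 K), Abv w l → ∃ v : HeightOneSpectrum (𝓞 F), Ov w v ∧ Abv v l) ∧
      ∀ w : HeightOneSpectrum (𝓞 K), Abv w l → ∀ ι ι' : L →ₐ[F] K, ι ≠ ι' →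
        w.valuation K (ι (th : L) - ι' (th : L)) = 1 := by
  classical
  obtain ⟨B0, hB0, hB⟩ := Pool.Agent.Q153.ESN.frx F K
  refine ⟨2 * B0 * ∏ ι : L →ₐ[F] K, ∏ ι' : L →ₐ[F] K,
    (if ι = ι' then 1 else Ideal.absNorm (Ideal.span {df th ι ι'})), ?_, ?_⟩
  · refine mul_ne_zero (mul_ne_zero two_ne_zero hB0) (Finset.prod_ne_zero_iff.2
      fun ι _ => Finset.prod_ne_zero_iff.2 fun ι' _ => ?_)
    split_ifs with h
    · exact one_ne_zero
    · rw [Ne, Ideal.absNorm_eq_zero_iff, Ideal.span_singleton_eq_bot]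
      exact df_ne hs h
  · intro l hl hlB
    have h1 : ¬ l ∣ B0 := fun h => hlB ((h.mul_left 2).mul_right _)
    obtain ⟨b1, -, -, b2⟩ := hB l hl h1
    refine ⟨?_, b1, fun w hw => ?_, fun w hw ι ι' hne => ?_⟩
    · rintro rfl
      exact hlB ((dvd_mul_right 2 _).mul_right _)
    · obtain ⟨v, hv1, hv2, -⟩ := b2 w hw
      exact ⟨v, hv1, hv2⟩
    · have h2 : df th ι ι' ∉ w.asIdeal := by
        intro hmem
        apply hlB
        refine Dvd.dvd.mul_left ?_ _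
        have h1 : l ∣ Ideal.absNorm (Ideal.span {df th ι ι'}) :=
          Pool.Agent.Q63.EA.dvd_absNorm hl (fun h => h w hw hmem)
        have h2 : (if ι = ι' then 1 else Ideal.absNorm (Ideal.span {df th ι ι'})) ∣
            ∏ ι : L →ₐ[F] K, ∏ ι' : L →ₐ[F] K,
              (if ι = ι' then 1 else Ideal.absNorm (Ideal.span {df th ι ι'})) :=
          ((Finset.dvd_prod_of_mem (fun ι' => if ι = ι' then 1 else
            Ideal.absNorm (Ideal.span {df th ι ι'})) (Finset.mem_univ ι')).trans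
            (Finset.dvd_prod_of_mem (fun ι => ∏ ι' : L →ₐ[F] K, (if ι = ι' then 1 else
            Ideal.absNorm (Ideal.span {df th ι ι'}))) (Finset.mem_univ ι)))
        rw [if_neg hne] at h2
        exact h1.trans h2
      have h3 : w.valuation K (ι (th : L) - ι' (th : L)) = w.intValuation (df th ι ι') :=
        w.valuation_of_algebraMap (K := K) (df th ι ι')
      rw [h3]
      exact w.intValuation_eq_one_iff.2 h2

end parts

/-- JOB GDJ -/
theorem gdj : S_J3 → S_J3E → S_CMP → S_GDJ := by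
  intro hJ hE hC F L _ _ _ _ _ H th hs K _ _ _ _ hne
  obtain ⟨B1, hB0, hB1⟩ := exists_B (K := K) hs
  refine ⟨B1, hB0, ?_⟩
  intro B hBB _ D hsq δ hδ hloc
  obtain ⟨d, hd, hloc⟩ := hloc
  have hnd : ∀ l : ℕ, ¬ l ∣ B → ¬ l ∣ B1 := fun l h h' => h (h'.trans hBB)
  have hcom : ∀ l : ℕ, ∀ [Fact l.Prime], ¬ l ∣ B → ∀ w : HeightOneSpectrum (𝓞 K), Abv w l →
      ∃ ψ : K →+* PadicAlgCl l, Nm w ψ ∧ Gl (EF F ψ) (fp H ψ) ∧
        (iO F K D ∉ w.asIdeal → ‖ψ (algebraMap F K (D : F))‖ = 1) ∧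
        (iO F K D ∈ w.asIdeal → ‖ψ (algebraMap F K (D : F))‖ = (l : ℝ) ^ (-1 : ℤ)) ∧
        (∃ u v G : (PadicAlgCl l)[X], Fx (EF F ψ) u ∧ Fx (EF F ψ) v ∧ Fx (EF F ψ) G ∧ u.Monic ∧
          u ∣ (fp H ψ).scaleRoots (ψ (algebraMap F K (D : F))) - v ^ 2 ∧
          IsCoprime u ((fp H ψ).scaleRoots (ψ (algebraMap F K (D : F)))) ∧
          (fp H ψ).scaleRoots (ψ (algebraMap F K (D : F))) ∣
            C ((-1) ^ u.natDegree) * u * d.map (ψ.comp (algebraMap F K)) - G ^ 2) ∧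
        (∀ φ : K ≃ₐ[F] K, Fb w l φ → ∀ τ : PadicAlgCl l ≃ₐ[ℚ_[l]] PadicAlgCl l,
          ∃ i : ℕ, ∀ x : K, τ (ψ x) = ψ ((φ ^ i) x)) ∧
        (∀ φ : K ≃ₐ[F] K, Fb w l φ → ∀ x : K, w.valuation K (φ x) = w.valuation K x) := by
    intro l _ hlB w hw
    have hl : l.Prime := Fact.out
    obtain ⟨c1, c2, c3, c4⟩ := hB1 l hl (hnd l hlB)
    obtain ⟨v, hv, hvl⟩ := c3 w hw
    obtain ⟨ψ, hN, hT⟩ := Pool.Agent.Q151.ESG.embw K l c2 w hw
    obtain ⟨⟨j, hj1, hj2⟩, hval⟩ := hC F K l c2 w v hw hv ψ hN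
    have hblw : Pool.Agent.Q149.ESM.Blw (algebraMap F K) v w := hv
    have hvD : w.valuation K (algebraMap F K (D : F)) = v.valuation F (D : F) :=
      Pool.Agent.Q149.ESM.val_blw (algebraMap F K) hl.ne_zero c2 hw hblw (D : F)
    have hwD : w.valuation K (algebraMap F K (D : F)) = w.intValuation (iO F K D) :=
      w.valuation_of_algebraMap (K := K) (iO F K D)
    have hres : ∀ φ : K ≃ₐ[F] K, ∃ φ' : K ≃ₐ[ℚ] K, ∀ x, φ' x = φ x := fun φ =>
      ⟨AlgEquiv.restrictScalars ℚ φ, fun _ => rfl⟩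
    refine ⟨ψ, hN, gl hne hs hN hval (fun ι ι' h => norm_of_one hN (c4 w hw ι ι' h)), ?_, ?_,
      loc_map j hj1 hj2 (hloc v), ?_, ?_⟩
    · intro h
      have h1 : w.valuation K (algebraMap F K (D : F)) = 1 := by
        rw [hwD]
        exact w.intValuation_eq_one_iff.2 h
      exact norm_of_one hN h1
    · intro h
      rcases hsq.2 l hl hlB v hvl with h1 | h1
      · exfalso
        rw [← hvD, hwD] at h1
        exact w.intValuation_eq_one_iff.1 h1 h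
      · exact hN _ 1 (by rw [hvD, h1])
    · intro φ hφ τ
      obtain ⟨φ', hφ'⟩ := hres φ
      obtain ⟨i, hi⟩ := hT φ' (fun x y hxy => hφ x y (by rw [hxy, hφ'])) τ
      exact ⟨i, fun x => by rw [hi, pow_restr φ φ' hφ']⟩
    · intro φ hφ x
      obtain ⟨φ', hφ'⟩ := hres φ
      have h1 : Pool.Agent.Q161.ESM.Fb w l φ' := fun x y hxy => hφ x y (by rw [hxy, hφ'])
      rw [← hφ']
      exact Pool.Agent.Q241.ESM.val_mv (Pool.Agent.Q124.ESM.mv_of_fb hl.ne_zero h1) x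
  constructor
  · intro l hl hlB w hw hDw ι
    haveI : Fact l.Prime := ⟨hl⟩
    obtain ⟨ψ, hN, hgl, hD1, -, hlo, -, -⟩ := hcom l hlB w hw
    exact even_part (hB1 l hl (hnd l hlB)).1 hE hgl (hD1 hDw) hs hN hδ hd hlo ι
  · intro l hl hlB w hw hDw
    haveI : Fact l.Prime := ⟨hl⟩
    obtain ⟨ψ, hN, hgl, -, hD1, hlo, hT, hV⟩ := hcom l hlB w hw
    exact odd_part (hB1 l hl (hnd l hlB)).1 hJ hgl (hD1 hDw) hne hs hN hδ hd hlo hT hV

end Pool.Agent.Q149.ESJ
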