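import Pool.Agent.Q149.ESJ.TwC

/-!
# Project ESJ (helper161), job MQJ: the rank of the Jacobian over an elementary abelian extension
(the sections on modules and characters are copied from `Pool/Agent/Q121/ESG/MQR.lean`)
-/

set_option autoImplicit false
set_option linter.unusedSectionVars false
set_option linter.style.haveILetI false

namespace Pool.Agent.Q149.ESJ

open Polynomial Finset
open Pool.Agent.Q161.ESJ
open Pool.Agent.Y723.HJ (CR OddM HF cl cl_def cl_surj cl_bar bar mapR clmap clmap_cl clmap_comp clmap_id mapR_inj)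

/-! ### involutions on modules -/

section mods

variable {P : Type} [AddCommGroup P]

theorem rank_fsup {ι : Type} (f : ι → Submodule ℤ P) (s : Finset ι) :
    Module.rank ℤ (s.sup f : Submodule ℤ P) ≤ ∑ i ∈ s, Module.rank ℤ (f i) := by
  classical
  induction s using Finset.induction_on with
  | empty =>
    rw [Finset.sup_empty, Finset.sum_empty]
    simp
  | insert a s ha ih =>
    rw [Finset.sup_insert, Finset.sum_insert ha]
    exact (Submodule.rank_add_le_rank_add_rank _ _).trans (add_le_add le_rfl ih)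

variable {G : Type} (V : G → P →+ P)

/-- common eigenspaces -/
def eig (S : Finset G) (χ : G → ℤˣ) : Submodule ℤ P where
  carrier := {x | ∀ σ ∈ S, V σ x = (χ σ : ℤ) • x}
  zero_mem' := by
    intro σ _
    rw [map_zero, smul_zero]
  add_mem' := by
    intro x y hx hy σ hσ
    rw [map_add, hx σ hσ, hy σ hσ, smul_add]
  smul_mem' := by
    intro n x hx σ hσ
    rw [map_zsmul, hx σ hσ, smul_comm]

theorem eig_step (hV2 : ∀ σ x, V σ (V σ x) = x) (hcomm : ∀ σ τ x, V σ (V τ x) = V τ (V σ x))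
    (S : Finset G) (x : P) : ((2 : ℤ) ^ S.card) • x ∈ ⨆ χ : G → ℤˣ, eig V S χ := by
  classical
  induction S using Finset.induction_on with
  | empty =>
    refine (le_iSup (eig V ∅) (fun _ => 1)) ?_
    intro σ hσ
    simp at hσ
  | insert σ S hσ ih =>
    rw [Finset.card_insert_of_notMem hσ, pow_succ', mul_smul]
    have key : ∀ χ : G → ℤˣ, ∀ y ∈ eig V S χ, (2 : ℤ) • y ∈ ⨆ χ : G → ℤˣ, eig V (insert σ S) χ := by
      intro χ y hy
      have h1 : y + V σ y ∈ eig V (insert σ S) (Function.update χ σ 1) := by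
        intro τ hτ
        by_cases hts : τ = σ
        · subst hts
          rw [Function.update_self, map_add, hV2, Units.val_one, one_smul, add_comm]
        · rw [Function.update_of_ne hts, map_add, hcomm τ σ,
            hy τ ((Finset.mem_insert.1 hτ).resolve_left hts), map_zsmul, smul_add]
      have h2 : y - V σ y ∈ eig V (insert σ S) (Function.update χ σ (-1)) := by
        intro τ hτ
        by_cases hts : τ = σ
        · subst hts
          rw [Function.update_self, map_sub, hV2, Units.val_neg, Units.val_one, neg_smul, one_smul,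
            neg_sub]
        · rw [Function.update_of_ne hts, map_sub, hcomm τ σ,
            hy τ ((Finset.mem_insert.1 hτ).resolve_left hts), map_zsmul, smul_sub]
      have h3 : (2 : ℤ) • y = (y + V σ y) + (y - V σ y) := by
        rw [two_smul]
        abel
      rw [h3]
      exact Submodule.add_mem _ ((le_iSup (eig V (insert σ S)) _) h1)
        ((le_iSup (eig V (insert σ S)) _) h2)
    have h4 : (⨆ χ : G → ℤˣ, eig V S χ) ≤
        (⨆ χ : G → ℤˣ, eig V (insert σ S) χ).comap ((2 : ℤ) • LinearMap.id) := by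
      rw [iSup_le_iff]
      intro χ y hy
      exact key χ y hy
    exact h4 ih

theorem rank_eig [Fintype G] [DecidableEq G] (hV2 : ∀ σ x, V σ (V σ x) = x)
    (hcomm : ∀ σ τ x, V σ (V τ x) = V τ (V σ x)) :
    Module.rank ℤ P ≤ ∑ χ : G → ℤˣ, Module.rank ℤ (eig V univ χ) := by
  have h1 := HasRankNullity.rank_quotient_add_rank (R := ℤ) (⨆ χ : G → ℤˣ, eig V univ χ)
  have h2 : Module.rank ℤ (P ⧸ (⨆ χ : G → ℤˣ, eig V univ χ)) = 0 := by
    rw [rank_eq_zero_iff]
    intro x
    obtain ⟨y, rfl⟩ := Submodule.Quotient.mk_surjective _ x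
    refine ⟨2 ^ (univ : Finset G).card, by positivity, ?_⟩
    rw [← Submodule.Quotient.mk_smul, Submodule.Quotient.mk_eq_zero]
    exact eig_step V hV2 hcomm univ y
  rw [h2, zero_add] at h1
  rw [← h1, ← Finset.sup_univ_eq_iSup]
  exact rank_fsup _ _

theorem u3 : ∀ a b c : ℤˣ, a ≠ b * c → (a : ℤ) = - ((c : ℤ) * (b : ℤ)) := by
  decide

theorem rank_nochar [Fintype G] [Mul G] (hmul : ∀ σ τ x, V (σ * τ) x = V σ (V τ x)) (χ : G → ℤˣ)
    (hχ : ¬ ∀ σ τ, χ (σ * τ) = χ σ * χ τ) : Module.rank ℤ (eig V univ χ) = 0 := by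
  rw [rank_eq_zero_iff]
  rintro ⟨x, hx⟩
  refine ⟨2, two_ne_zero, ?_⟩
  apply Subtype.ext
  show (2 : ℤ) • x = 0
  push Not at hχ
  obtain ⟨σ, τ, h⟩ := hχ
  have h1 := hmul σ τ x
  rw [hx _ (Finset.mem_univ _), hx τ (Finset.mem_univ _), map_zsmul, hx σ (Finset.mem_univ _),
    smul_smul] at h1
  have h2 : (χ (σ * τ) : ℤ) = - ((χ τ : ℤ) * (χ σ : ℤ)) := u3 _ _ _ h
  rw [h2, neg_smul] at h1
  have h3 : ((χ τ : ℤ) * (χ σ : ℤ)) • ((2 : ℤ) • x) = 0 := by
    rw [smul_comm, two_smul]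
    nth_rewrite 1 [← h1]
    simp
  have h4 : ((χ τ : ℤ) * (χ σ : ℤ)) * ((χ τ : ℤ) * (χ σ : ℤ)) = 1 := by
    rcases Int.units_eq_one_or (χ σ) with h4 | h4 <;>
    rcases Int.units_eq_one_or (χ τ) with h5 | h5 <;>
    rw [h4, h5] <;> simp
  calc (2 : ℤ) • x = (((χ τ : ℤ) * (χ σ : ℤ)) * ((χ τ : ℤ) * (χ σ : ℤ))) • ((2 : ℤ) • x) := by
        rw [h4, one_smul]
    _ = 0 := by rw [mul_smul, h3, smul_zero]

/-- a homomorphism onto `𝔽₂^r`, `r` the rank -/
theorem exists_two (A : Type) [AddCommGroup A] [Module.Finite ℤ A] :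
    ∃ π : A →+ (Fin (Module.finrank ℤ A) → ZMod 2), Function.Surjective π := by
  have hfr : Module.finrank ℤ (A ⧸ Submodule.torsion ℤ A) = Module.finrank ℤ A := by
    unfold Module.finrank
    rw [rank_quotient_eq_of_le_torsion le_rfl]
  have b := Module.finBasisOfFinrankEq ℤ (A ⧸ Submodule.torsion ℤ A) hfr
  let q : A →+ (A ⧸ Submodule.torsion ℤ A) := (Submodule.mkQ (Submodule.torsion ℤ A)).toAddMonoidHom
  let e : (A ⧸ Submodule.torsion ℤ A) →+ (Fin (Module.finrank ℤ A) → ℤ) := b.equivFun.toLinearMap.toAddMonoidHom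
  let c : (Fin (Module.finrank ℤ A) → ℤ) →+ (Fin (Module.finrank ℤ A) → ZMod 2) :=
    (RingHom.pi fun i => (Int.castRingHom (ZMod 2)).comp (Pi.evalRingHom _ i)).toAddMonoidHom
  refine ⟨c.comp (e.comp q), ?_⟩
  intro y
  obtain ⟨x, hx⟩ : ∃ x : Fin (Module.finrank ℤ A) → ℤ, ∀ i, ((x i : ℤ) : ZMod 2) = y i :=
    ⟨fun i => (ZMod.intCast_surjective (y i)).choose, fun i => (ZMod.intCast_surjective (y i)).choose_spec⟩
  obtain ⟨a, ha⟩ := Submodule.mkQ_surjective (Submodule.torsion ℤ A) (b.equivFun.symm x)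
  refine ⟨a, ?_⟩
  have h1 : e (q a) = x := by
    show b.equivFun (Submodule.mkQ (Submodule.torsion ℤ A) a) = x
    rw [ha, LinearEquiv.apply_symm_apply]
  show c (e (q a)) = y
  rw [h1]
  funext i
  exact hx i

theorem two_pow_le {A J : Type} [AddCommGroup A] [Module.Finite ℤ A] [AddCommGroup J] (φ : J →+ A)
    (hφ : Function.Surjective φ) (hfin : Finite (J ⧸ (nsmulAddMonoidHom 2 : J →+ J).range)) :
    2 ^ Module.finrank ℤ A ≤ Nat.card (J ⧸ (nsmulAddMonoidHom 2 : J →+ J).range) := by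
  obtain ⟨π, hπ⟩ := exists_two A
  have h1 : (nsmulAddMonoidHom 2 : J →+ J).range ≤ (π.comp φ).ker := by
    rintro _ ⟨x, rfl⟩
    rw [AddMonoidHom.mem_ker, nsmulAddMonoidHom_apply, map_nsmul]
    funext i
    rw [Pi.smul_apply, Pi.zero_apply, two_nsmul]
    exact CharTwo.add_self_eq_zero _
  let ψ := QuotientAddGroup.lift _ (π.comp φ) h1
  have h2 : Function.Surjective ψ := by
    intro y
    obtain ⟨a, ha⟩ := hπ y
    obtain ⟨x, hx⟩ := hφ a
    refine ⟨QuotientAddGroup.mk x, ?_⟩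
    show π (φ x) = y
    rw [hx, ha]
  have h3 := Nat.card_le_card_of_surjective ψ h2
  rw [Nat.card_eq_fintype_card (α := Fin (Module.finrank ℤ A) → ZMod 2), Fintype.card_fun, ZMod.card,
    Fintype.card_fin] at h3
  exact h3

end mods

/-! ### characters -/

section chars

variable {F M : Type} [Field F] [NumberField F] [Field M] [NumberField M] [Algebra F M]

theorem ex_s (χ : (M ≃ₐ[F] M) → ℤˣ) (hχ : ∀ σ τ, χ (σ * τ) = χ σ * χ τ) :
    ∃ s : M, s ≠ 0 ∧ ∀ σ : M ≃ₐ[F] M, σ s = ((χ σ : ℤ) : M) * s := by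
  have hfd : FiniteDimensional F M := inferInstance
  let f : (M ≃ₐ[F] M) → Mˣ := fun σ => Units.map (Int.castRingHom M : ℤ →* M) (χ σ)
  have hf : groupCohomology.IsMulCocycle₁ f := by
    intro σ τ
    apply Units.ext
    show (((χ (σ * τ) : ℤˣ) : ℤ) : M) = σ (((χ τ : ℤˣ) : ℤ) : M) * (((χ σ : ℤˣ) : ℤ) : M)
    rw [hχ, map_intCast]
    push_cast
    ring
  obtain ⟨β, hβ⟩ := groupCohomology.isMulCoboundary₁_of_isMulCocycle₁_of_aut_to_units f hf
  refine ⟨β, β.ne_zero, fun σ => ?_⟩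
  have h1 := hβ σ
  rw [div_eq_iff_eq_mul] at h1
  exact congrArg Units.val h1

theorem sq_fix [IsGalois F M] (χ : (M ≃ₐ[F] M) → ℤˣ) (s : M)
    (hs : ∀ σ : M ≃ₐ[F] M, σ s = ((χ σ : ℤ) : M) * s) : ∃ c : F, s ^ 2 = algebraMap F M c := by
  have h1 : s ^ 2 ∈ Set.range (algebraMap F M) := by
    rw [IsGalois.mem_range_algebraMap_iff_fixed]
    intro σ
    rw [map_pow, hs, mul_pow]
    have h2 : (((χ σ : ℤ) : M)) ^ 2 = 1 := by
      rcases Int.units_eq_one_or (χ σ) with h | h <;> rw [h] <;> simp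
    rw [h2, one_mul]
  obtain ⟨c, hc⟩ := h1
  exact ⟨c, hc.symm⟩

end chars

/-! ### the maps of the points -/

section pm

variable {F : Type} [Field F] (H : HP F)

theorem pm_comp {L M N : Type} [Field L] [Algebra F L] [Field M] [Algebra F M] [Field N] [Algebra F N]
    [HF (pol H L)] [HF (pol H M)] [HF (pol H N)] (φ : L →ₐ[F] M) (ψ : M →ₐ[F] N) (P : Jac H L) :
    pointMap H ψ (pointMap H φ P) = pointMap H (ψ.comp φ) P :=
  clmap_comp (φ : L →+* M) (pol_map H φ) (ψ : M →+* N) (pol_map H ψ) P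

theorem pm_id {L : Type} [Field L] [Algebra F L] [HF (pol H L)] (P : Jac H L) :
    pointMap H (AlgHom.id F L) P = P :=
  clmap_id (f := pol H L) P (pol_map H (AlgHom.id F L))

theorem hf_pol {H : HP F} (hsep : H.pol.Separable) (L : Type) [Field L] [Algebra F L] [CharZero L] :
    HF (pol H L) where
  sep := hsep.map
  two := two_ne_zero

theorem comp_scale {L : Type} [Field L] (p : L[X]) (a : L) :
    (p.scaleRoots a).comp (C a * X) = C (a ^ p.natDegree) * p := by
  refine Polynomial.ext fun k => ?_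
  rw [comp_C_mul_X_coeff, coeff_scaleRoots, coeff_C_mul]
  by_cases hk : k ≤ p.natDegree
  · obtain ⟨j, hj⟩ := Nat.exists_eq_add_of_le hk
    rw [hj, Nat.add_sub_cancel_left, pow_add]
    ring
  · rw [coeff_eq_zero_of_natDegree_lt (not_le.1 hk)]
    ring

theorem sep_scale {L : Type} [Field L] {p : L[X]} (hp : p.Separable) {a : L} (ha : a ≠ 0) :
    (p.scaleRoots a).Separable := by
  have h1 : (C (a ^ p.natDegree) * p).comp (C a⁻¹ * X) = p.scaleRoots a := by
    rw [← comp_scale, comp_inv (mul_inv_cancel₀ ha)]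
  rw [mul_comp, C_comp] at h1
  rw [← h1]
  have h2 : IsCoprime (p.comp (C a⁻¹ * X)) ((derivative p).comp (C a⁻¹ * X)) := by
    have h3 := IsCoprime.map hp (compRingHom (C a⁻¹ * X))
    exact h3
  have h3 : derivative (p.comp (C a⁻¹ * X)) = C a⁻¹ * (derivative p).comp (C a⁻¹ * X) := by
    rw [derivative_comp, derivative_C_mul, derivative_X, mul_one]
  have hu : IsUnit (C (a ^ p.natDegree)) := isUnit_C.2 (pow_ne_zero _ ha).isUnit
  have hu' : IsUnit (C a⁻¹) := isUnit_C.2 (inv_ne_zero ha).isUnit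
  unfold Separable
  rw [derivative_C_mul, isCoprime_mul_unit_left hu, h3, isCoprime_mul_unit_left_right hu']
  exact h2

end pm

section twm

variable {F : Type} [Field F] (H : HP F) {L : Type} [Field L] [Algebra F L]

theorem tw_hyp {d : F} {s : L} (hs : s ^ 2 = algebraMap F L d) :
    (pol (H.twist d) L).comp (C (algebraMap F L d) * X) = C ((s ^ H.pol.natDegree) ^ 2) * pol H L := by
  have h1 : pol (H.twist d) L = (pol H L).scaleRoots (algebraMap F L d) := by
    unfold pol HP.twist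
    rw [Polynomial.map_scaleRoots]
    rw [H.monic.leadingCoeff, map_one]
    exact one_ne_zero
  have h2 : (pol H L).natDegree = H.pol.natDegree := by
    unfold pol
    exact H.monic.natDegree_map _
  rw [h1, comp_scale, h2, ← hs, ← pow_mul, ← pow_mul, mul_comm 2]

theorem ne_of_sq {d : F} (hd : d ≠ 0) {s : L} (hs : s ^ 2 = algebraMap F L d) : s ≠ 0 := by
  rintro rfl
  apply hd
  apply (algebraMap F L).injective
  rw [map_zero, ← hs]
  exact zero_pow two_ne_zero

theorem tw_injT {d : F} (hd : d ≠ 0) {s : L} (hs : s ^ 2 = algebraMap F L d) :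
    Function.Injective (tw _ _ (tw_hyp H hs)) :=
  tw_inj ((_root_.map_ne_zero _).2 hd) (pow_ne_zero _ (ne_of_sq hd hs)) _

/-- the isomorphism of the twist -/
noncomputable def twm {d : F} (hd : d ≠ 0) {s : L} (hs : s ^ 2 = algebraMap F L d) :
    Jac (H.twist d) L →+ Jac H L :=
  AddMonoidHom.mk' (fun Q => chom (f := pol (H.twist d) L) (f' := pol H L) (tw _ _ (tw_hyp H hs)) (tw_injT H hd hs) Q)
    (fun _ _ => map_mul (chom (f := pol (H.twist d) L) (f' := pol H L) (tw _ _ (tw_hyp H hs)) (tw_injT H hd hs)) _ _)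

variable [HF (pol H L)] {d : F} [HF (pol (H.twist d) L)]

theorem twm_bij (hd : d ≠ 0) {s : L} (hs : s ^ 2 = algebraMap F L d) : Function.Bijective (twm H hd hs) := by
  have ha : algebraMap F L d ≠ 0 := (_root_.map_ne_zero _).2 hd
  have hc : s ^ H.pol.natDegree ≠ 0 := pow_ne_zero _ (ne_of_sq hd hs)
  have h := tw_hyp H hs
  have h' := tw_symm (mul_inv_cancel₀ ha) (mul_inv_cancel₀ hc) h
  have hi : Function.Injective (tw _ _ h') := tw_inj (inv_ne_zero ha) (inv_ne_zero hc) h'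
  constructor
  · intro x y hxy
    have e : ∀ x : ClassGroup (CR (pol (H.twist d) L)),
        chom (tw _ _ h') hi (chom (tw _ _ h) (tw_injT H hd hs) x) = x := fun x => by
      rw [chom_comp _ _ _ _ (RingHom.id _) Function.injective_id
        (tw_inv (mul_inv_cancel₀ ha) (mul_inv_cancel₀ hc) h h'), chom_id _ _ rfl]
    have h1 := congrArg (chom (tw _ _ h') hi) hxy
    exact (e x).symm.trans (h1.trans (e y))
  · intro y
    have e : ∀ x : ClassGroup (CR (pol H L)),
        chom (tw _ _ h) (tw_injT H hd hs) (chom (tw _ _ h') hi x) = x := fun x => by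
      rw [chom_comp _ _ _ _ (RingHom.id _) Function.injective_id
        (tw_inv (inv_mul_cancel₀ ha) (inv_mul_cancel₀ hc) h' h), chom_id _ _ rfl]
    exact ⟨chom (tw _ _ h') hi y, e y⟩

theorem twm_comm (hd : d ≠ 0) {s : L} (hs : s ^ 2 = algebraMap F L d) (τ : L →ₐ[F] L) (ε : ℤˣ)
    (hτ : τ s = ((ε : ℤ) : L) * s) (Q : Jac (H.twist d) L) :
    pointMap H τ (twm H hd hs Q) = (ε : ℤ) • twm H hd hs (pointMap (H.twist d) τ Q) := by
  have ha : (τ : L →+* L) (algebraMap F L d) = algebraMap F L d := τ.commutes d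
  have h := tw_hyp H hs
  rcases Int.units_eq_one_or ε with he | he
  · rw [he] at hτ ⊢
    rw [Units.val_one, one_smul]
    rw [Units.val_one, Int.cast_one, one_mul] at hτ
    have hc : (τ : L →+* L) (s ^ H.pol.natDegree) = s ^ H.pol.natDegree := by
      rw [map_pow]
      congr 1
    have e := tw_map' (τ : L →+* L) (pol_map H τ) (pol_map (H.twist d) τ) h h ha hc
    have hk : Function.Injective ((mapR (τ : L →+* L) (pol_map H τ)).comp (tw _ _ h)) :=
      (mapR_inj (τ : L →+* L) (pol_map H τ)).comp (tw_injT H hd hs)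
    have hk2 : Function.Injective ((tw _ _ h).comp (mapR (τ : L →+* L) (pol_map (H.twist d) τ))) :=
      (tw_injT H hd hs).comp (mapR_inj (τ : L →+* L) (pol_map (H.twist d) τ))
    have e1 : ∀ x : ClassGroup (CR (pol (H.twist d) L)),
        chom (mapR (τ : L →+* L) (pol_map H τ)) (mapR_inj _ _) (chom (tw _ _ h) (tw_injT H hd hs) x) =
        chom (tw _ _ h) (tw_injT H hd hs)
          (chom (mapR (τ : L →+* L) (pol_map (H.twist d) τ)) (mapR_inj _ _) x) := fun x => by
      rw [chom_comp _ _ _ _ _ hk rfl, chom_comp _ _ _ _ _ hk e.symm]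
    exact e1 Q
  · rw [he] at hτ ⊢
    rw [Units.val_neg, Units.val_one, neg_smul, one_smul]
    rw [Units.val_neg, Units.val_one, Int.cast_neg, Int.cast_one, neg_mul, one_mul] at hτ
    have hc : (τ : L →+* L) (s ^ H.pol.natDegree) = -(s ^ H.pol.natDegree) := by
      rw [map_pow, ← H.odd.neg_pow]
      congr 1
    have h' : (pol (H.twist d) L).comp (C (algebraMap F L d) * X) =
        C ((-(s ^ H.pol.natDegree)) ^ 2) * pol H L := by
      rw [neg_sq]
      exact h
    have e := tw_map' (τ : L →+* L) (pol_map H τ) (pol_map (H.twist d) τ) h h' ha hc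
    rw [tw_neg h h', RingHom.comp_assoc] at e
    have hstar : Function.Injective (starRingEnd (CR (pol H L))) := star_injective
    have hk : Function.Injective ((mapR (τ : L →+* L) (pol_map H τ)).comp (tw _ _ h)) :=
      (mapR_inj (τ : L →+* L) (pol_map H τ)).comp (tw_injT H hd hs)
    have hk2 : Function.Injective ((tw _ _ h).comp (mapR (τ : L →+* L) (pol_map (H.twist d) τ))) :=
      (tw_injT H hd hs).comp (mapR_inj (τ : L →+* L) (pol_map (H.twist d) τ))
    have e1 : ∀ x : ClassGroup (CR (pol (H.twist d) L)),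
        chom (mapR (τ : L →+* L) (pol_map H τ)) (mapR_inj _ _) (chom (tw _ _ h) (tw_injT H hd hs) x) =
        (chom (tw _ _ h) (tw_injT H hd hs)
          (chom (mapR (τ : L →+* L) (pol_map (H.twist d) τ)) (mapR_inj _ _) x))⁻¹ := fun x => by
      rw [chom_comp _ _ _ _ _ hk rfl, chom_comp _ _ _ _ _ hk2 rfl,
        ← chom_star (starRingEnd (CR (pol H L))) hstar rfl, chom_comp _ _ _ _ _ hk e.symm]
    exact e1 Q

end twm

/-! ### the action of the Galois group -/

section main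

variable {F K : Type} [Field F] [NumberField F] [Field K] [NumberField K] [Algebra F K]

theorem isac : IsAlgClosure F (AlgebraicClosure K) := by
  haveI : IsScalarTower ℚ F K := IsScalarTower.of_algebraMap_eq' (Subsingleton.elim _ _)
  haveI : FiniteDimensional F K := Module.Finite.of_restrictScalars_finite ℚ F K
  exact ⟨inferInstance, Algebra.IsAlgebraic.trans F K (AlgebraicClosure K)⟩

variable (H : HP F)

theorem fixK {ρ : AlgebraicClosure K ≃ₐ[F] AlgebraicClosure K}
    (h : ∀ x : K, ρ (algebraMap K (AlgebraicClosure K) x) = algebraMap K (AlgebraicClosure K) x)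
    {P : Jac H (AlgebraicClosure K)} (hP : P ∈ JacK H K) :
    pointMap H (ρ : AlgebraicClosure K →ₐ[F] AlgebraicClosure K) P = P := by
  let ρ' : GF K := AlgEquiv.ofRingEquiv (f := ρ.toRingEquiv) h
  have h1 := hP ρ'
  have h2 : ((ρ' : AlgebraicClosure K →ₐ[K] AlgebraicClosure K).restrictScalars F) =
      (ρ : AlgebraicClosure K →ₐ[F] AlgebraicClosure K) := AlgHom.ext fun _ => rfl
  unfold act at h1
  rwa [h2] at h1

theorem pm_mul [HF (pol H (AlgebraicClosure K))] (σ τ : AlgebraicClosure K ≃ₐ[F] AlgebraicClosure K)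
    (P : Jac H (AlgebraicClosure K)) :
    pointMap H ((σ * τ : AlgebraicClosure K ≃ₐ[F] AlgebraicClosure K) :
      AlgebraicClosure K →ₐ[F] AlgebraicClosure K) P =
      pointMap H (σ : AlgebraicClosure K →ₐ[F] AlgebraicClosure K)
        (pointMap H (τ : AlgebraicClosure K →ₐ[F] AlgebraicClosure K) P) := by
  rw [pm_comp]
  congr 1

/-- `τ` induces `g` on `K` -/
def Ext (τ : AlgebraicClosure K ≃ₐ[F] AlgebraicClosure K) (g : K ≃ₐ[F] K) : Prop :=
  ∀ x : K, τ (algebraMap K (AlgebraicClosure K) x) = algebraMap K (AlgebraicClosure K) (g x)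

theorem key [HF (pol H (AlgebraicClosure K))] {τ τ' : AlgebraicClosure K ≃ₐ[F] AlgebraicClosure K}
    {g : K ≃ₐ[F] K} (h : Ext τ g) (h' : Ext τ' g) {P : Jac H (AlgebraicClosure K)} (hP : P ∈ JacK H K) :
    pointMap H (τ : AlgebraicClosure K →ₐ[F] AlgebraicClosure K) P =
      pointMap H (τ' : AlgebraicClosure K →ₐ[F] AlgebraicClosure K) P := by
  have h1 : pointMap H ((τ'⁻¹ * τ : AlgebraicClosure K ≃ₐ[F] AlgebraicClosure K) :
      AlgebraicClosure K →ₐ[F] AlgebraicClosure K) P = P := by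
    refine fixK H (fun x => ?_) hP
    rw [AlgEquiv.mul_apply, h x, ← h' x]
    exact τ'.symm_apply_apply _
  calc pointMap H (τ : AlgebraicClosure K →ₐ[F] AlgebraicClosure K) P =
      pointMap H ((τ' * (τ'⁻¹ * τ) : AlgebraicClosure K ≃ₐ[F] AlgebraicClosure K) :
        AlgebraicClosure K →ₐ[F] AlgebraicClosure K) P := by rw [mul_inv_cancel_left]
    _ = _ := by rw [pm_mul, h1]

theorem ext_mul {τ τ' : AlgebraicClosure K ≃ₐ[F] AlgebraicClosure K} {g g' : K ≃ₐ[F] K} (h : Ext τ g)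
    (h' : Ext τ' g') : Ext (τ * τ') (g * g') := by
  intro x
  rw [AlgEquiv.mul_apply, h' x, h, AlgEquiv.mul_apply]

variable [IsGalois F K]

theorem exists_lf (g : K ≃ₐ[F] K) : ∃ τ : AlgebraicClosure K ≃ₐ[F] AlgebraicClosure K, Ext τ g := by
  haveI : IsAlgClosure F (AlgebraicClosure K) := isac
  haveI : Normal F (AlgebraicClosure K) := IsAlgClosure.normal F (AlgebraicClosure K)
  exact ⟨g.liftNormal (AlgebraicClosure K), fun x => AlgEquiv.liftNormal_commutes g (AlgebraicClosure K) x⟩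

/-- an extension to the algebraic closure -/
noncomputable def lf (g : K ≃ₐ[F] K) : AlgebraicClosure K ≃ₐ[F] AlgebraicClosure K := (exists_lf g).choose

theorem lf_spec (g : K ≃ₐ[F] K) : Ext (lf g) g := (exists_lf g).choose_spec

variable [HF (pol H (AlgebraicClosure K))]

theorem act_eq (σ : GF K) (P : Jac H (AlgebraicClosure K)) : ∃ τ : AlgebraicClosure K ≃ₐ[F] AlgebraicClosure K,
    Ext τ (1 : K ≃ₐ[F] K) ∧ act H σ P = pointMap H (τ : AlgebraicClosure K →ₐ[F] AlgebraicClosure K) P := by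
  refine ⟨AlgEquiv.ofRingEquiv (f := σ.toRingEquiv) (fun x => ?_), fun x => σ.commutes x, ?_⟩
  · show σ (algebraMap F (AlgebraicClosure K) x) = algebraMap F (AlgebraicClosure K) x
    rw [IsScalarTower.algebraMap_apply F K (AlgebraicClosure K)]
    exact σ.commutes _
  · unfold act
    congr 1

theorem stab (g : K ≃ₐ[F] K) {P : Jac H (AlgebraicClosure K)} (hP : P ∈ JacK H K) :
    pointMap H (lf g : AlgebraicClosure K →ₐ[F] AlgebraicClosure K) P ∈ JacK H K := by
  intro σ
  obtain ⟨τ, hτ, e⟩ := act_eq H σ (pointMap H (lf g : AlgebraicClosure K →ₐ[F] AlgebraicClosure K) P)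
  rw [e, ← pm_mul]
  refine key H (g := g) ?_ (lf_spec g) hP
  have h1 := ext_mul hτ (lf_spec g)
  rwa [one_mul] at h1

/-- the action of the Galois group -/
noncomputable def Vg (g : K ≃ₐ[F] K) : JacK H K →+ JacK H K :=
  AddMonoidHom.mk' (fun P => ⟨pointMap H (lf g : AlgebraicClosure K →ₐ[F] AlgebraicClosure K) P.1, stab H g P.2⟩)
    (fun P Q => Subtype.ext (pointMap_add H _ P.1 Q.1))

theorem Vg_mul (g g' : K ≃ₐ[F] K) (P : JacK H K) : Vg H (g * g') P = Vg H g (Vg H g' P) := by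
  apply Subtype.ext
  show pointMap H (lf (g * g') : AlgebraicClosure K →ₐ[F] AlgebraicClosure K) P.1 =
    pointMap H (lf g : AlgebraicClosure K →ₐ[F] AlgebraicClosure K)
      (pointMap H (lf g' : AlgebraicClosure K →ₐ[F] AlgebraicClosure K) P.1)
  rw [← pm_mul]
  exact key H (lf_spec _) (ext_mul (lf_spec g) (lf_spec g')) P.2

theorem Vg_one (P : JacK H K) : Vg H (1 : K ≃ₐ[F] K) P = P := by
  apply Subtype.ext
  show pointMap H (lf (1 : K ≃ₐ[F] K) : AlgebraicClosure K →ₐ[F] AlgebraicClosure K) P.1 = P.1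
  exact fixK H (fun x => lf_spec 1 x) P.2

theorem exists_surj {d : F} (hd : d ≠ 0) [HF (pol (H.twist d) (AlgebraicClosure K))]
    [HF (pol (H.twist d) (AlgebraicClosure F))] [Fintype (K ≃ₐ[F] K)] (χ : (K ≃ₐ[F] K) → ℤˣ) {s : K}
    (hs2 : s ^ 2 = algebraMap F K d) (hs : ∀ σ : K ≃ₐ[F] K, σ s = ((χ σ : ℤ) : K) * s) :
    ∃ φ : JacK (H.twist d) F →+ eig (Vg H) univ χ, Function.Surjective φ := by
  haveI : IsAlgClosure F (AlgebraicClosure K) := isac
  have hs2' : (algebraMap K (AlgebraicClosure K) s) ^ 2 = algebraMap F (AlgebraicClosure K) d := by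
    rw [← map_pow, hs2, ← IsScalarTower.algebraMap_apply]
  let e : AlgebraicClosure F ≃ₐ[F] AlgebraicClosure K :=
    IsAlgClosure.equiv F (AlgebraicClosure F) (AlgebraicClosure K)
  let Ψ : Jac (H.twist d) (AlgebraicClosure F) →+ Jac H (AlgebraicClosure K) :=
    (twm H hd hs2').comp (pointHom (H.twist d) (e : AlgebraicClosure F →ₐ[F] AlgebraicClosure K))
  have hΨ : ∀ Q, Ψ Q = twm H hd hs2' (pointMap (H.twist d)
      (e : AlgebraicClosure F →ₐ[F] AlgebraicClosure K) Q) := fun Q => rfl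
  -- the action
  have hact : ∀ (τ : AlgebraicClosure K ≃ₐ[F] AlgebraicClosure K) (g : K ≃ₐ[F] K), Ext τ g →
      ∀ σ : GF F, (∀ x, e (σ x) = τ (e x)) → ∀ Q,
      pointMap H (τ : AlgebraicClosure K →ₐ[F] AlgebraicClosure K) (Ψ Q) =
        (χ g : ℤ) • Ψ (act (H.twist d) σ Q) := by
    intro τ g hτ σ hσ Q
    have h1 : (τ : AlgebraicClosure K →ₐ[F] AlgebraicClosure K) (algebraMap K (AlgebraicClosure K) s) =
        ((χ g : ℤ) : AlgebraicClosure K) * algebraMap K (AlgebraicClosure K) s := by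
      show τ (algebraMap K (AlgebraicClosure K) s) = _
      rw [hτ s, hs g, map_mul, map_intCast]
    have h2 : (τ : AlgebraicClosure K →ₐ[F] AlgebraicClosure K).comp
        (e : AlgebraicClosure F →ₐ[F] AlgebraicClosure K) =
        (e : AlgebraicClosure F →ₐ[F] AlgebraicClosure K).comp
          ((σ : AlgebraicClosure F →ₐ[F] AlgebraicClosure F).restrictScalars F) :=
      AlgHom.ext fun x => (hσ x).symm
    rw [hΨ, twm_comm H hd hs2' _ (χ g) h1, hΨ]
    unfold act
    rw [pm_comp, pm_comp, h2]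
  have hσ : ∀ τ : AlgebraicClosure K ≃ₐ[F] AlgebraicClosure K, ∃ σ : GF F, ∀ x, e (σ x) = τ (e x) := by
    intro τ
    refine ⟨(e.trans τ).trans e.symm, fun x => ?_⟩
    exact e.apply_symm_apply _
  have hfix : ∀ (τ : AlgebraicClosure K ≃ₐ[F] AlgebraicClosure K) (g : K ≃ₐ[F] K), Ext τ g →
      ∀ Q ∈ JacK (H.twist d) F, pointMap H (τ : AlgebraicClosure K →ₐ[F] AlgebraicClosure K) (Ψ Q) =
        (χ g : ℤ) • Ψ Q := by
    intro τ g hτ Q hQ
    obtain ⟨σ, hσ⟩ := hσ τ
    rw [hact τ g hτ σ hσ Q, hQ σ]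
  have hs0 : s ≠ 0 := ne_of_sq hd hs2
  have hχ1 : ((χ 1 : ℤˣ) : ℤ) = 1 := by
    have h1 := hs 1
    rw [AlgEquiv.one_apply] at h1
    have h2 : (1 - ((χ 1 : ℤ) : K)) * s = 0 := by linear_combination h1
    have h3 : (1 : K) - ((χ 1 : ℤ) : K) = 0 := (mul_eq_zero.1 h2).resolve_right hs0
    have h4 : ((1 : ℤ) : K) = ((χ 1 : ℤ) : K) := by
      push_cast
      linear_combination h3
    exact (Int.cast_injective h4).symm
  have hmem : ∀ Q ∈ JacK (H.twist d) F, Ψ Q ∈ JacK H K := by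
    intro Q hQ σ
    obtain ⟨τ, hτ, h1⟩ := act_eq H σ (Ψ Q)
    rw [h1, hfix τ 1 hτ Q hQ, hχ1, one_smul]
  refine ⟨AddMonoidHom.mk' (fun Q => ⟨⟨Ψ Q.1, hmem Q.1 Q.2⟩, fun g _ => Subtype.ext
    (hfix (lf g) g (lf_spec g) Q.1 Q.2)⟩) (fun Q Q' => Subtype.ext (Subtype.ext (map_add Ψ Q.1 Q'.1))), ?_⟩
  rintro ⟨⟨P, hP⟩, hPe⟩
  have he1 : ∀ Q : Jac (H.twist d) (AlgebraicClosure K),
      pointMap (H.twist d) (e : AlgebraicClosure F →ₐ[F] AlgebraicClosure K)
        (pointMap (H.twist d) (e.symm : AlgebraicClosure K →ₐ[F] AlgebraicClosure F) Q) = Q := by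
    intro Q
    rw [pm_comp]
    have h1 : (e : AlgebraicClosure F →ₐ[F] AlgebraicClosure K).comp
        (e.symm : AlgebraicClosure K →ₐ[F] AlgebraicClosure F) = AlgHom.id F _ :=
      AlgHom.ext fun x => e.apply_symm_apply x
    rw [h1, pm_id]
  have he2 : ∀ Q : Jac (H.twist d) (AlgebraicClosure F),
      pointMap (H.twist d) (e.symm : AlgebraicClosure K →ₐ[F] AlgebraicClosure F)
        (pointMap (H.twist d) (e : AlgebraicClosure F →ₐ[F] AlgebraicClosure K) Q) = Q := by
    intro Q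
    rw [pm_comp]
    have h1 : (e.symm : AlgebraicClosure K →ₐ[F] AlgebraicClosure F).comp
        (e : AlgebraicClosure F →ₐ[F] AlgebraicClosure K) = AlgHom.id F _ :=
      AlgHom.ext fun x => e.symm_apply_apply x
    rw [h1, pm_id]
  have hinj : Function.Injective Ψ := by
    intro Q Q' h
    have h1 := (twm_bij H hd hs2').1 h
    rw [← he2 Q, ← he2 Q']
    exact congrArg _ h1
  obtain ⟨R, hR⟩ := (twm_bij H hd hs2').2 P
  have hR' : Ψ (pointMap (H.twist d) (e.symm : AlgebraicClosure K →ₐ[F] AlgebraicClosure F) R) = P := by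
    rw [hΨ, he1, hR]
  refine ⟨⟨pointMap (H.twist d) (e.symm : AlgebraicClosure K →ₐ[F] AlgebraicClosure F) R, ?_⟩,
    Subtype.ext (Subtype.ext hR')⟩
  intro σ
  apply hinj
  haveI : Normal F K := inferInstance
  let τ : AlgebraicClosure K ≃ₐ[F] AlgebraicClosure K := (e.symm.trans σ).trans e
  let g : K ≃ₐ[F] K := τ.restrictNormal K
  have hτg : Ext τ g := fun x => (AlgEquiv.restrictNormal_commutes τ K x).symm
  have hστ : ∀ x, e (σ x) = τ (e x) := by
    intro x
    show e (σ x) = e (σ (e.symm (e x)))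
    rw [e.symm_apply_apply]
  have h1 := hact τ g hτg σ hστ (pointMap (H.twist d)
    (e.symm : AlgebraicClosure K →ₐ[F] AlgebraicClosure F) R)
  rw [hR'] at h1
  have h2 : pointMap H (τ : AlgebraicClosure K →ₐ[F] AlgebraicClosure K) P = (χ g : ℤ) • P := by
    rw [key H hτg (lf_spec g) hP]
    exact congrArg Subtype.val (hPe g (Finset.mem_univ _))
  rw [h2] at h1
  rw [hR']
  rcases Int.units_eq_one_or (χ g) with h | h
  · rw [h, Units.val_one, one_smul, one_smul] at h1
    exact h1.symm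
  · rw [h, Units.val_neg, Units.val_one, neg_smul, one_smul, neg_smul, one_smul, neg_inj] at h1
    exact h1.symm

end main

theorem mqj : S_MQJ := by
  classical
  intro F K _ _ _ _ _ hG hexp m d hd hcl H hsep hfg
  haveI : HF (pol H (AlgebraicClosure K)) := hf_pol hsep _
  have htw : ∀ i, (H.twist (d i)).pol.Separable := fun i => sep_scale hsep (hd i)
  haveI : Module.Finite ℤ (JacK H K) := Module.Finite.iff_addGroup_fg.2 hfg
  have hst : IsScalarTower ℚ F K := IsScalarTower.of_algebraMap_eq' (Subsingleton.elim _ _)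
  have hfd : FiniteDimensional F K := Module.Finite.of_restrictScalars_finite ℚ F K
  have hmul := Vg_mul (K := K) H
  have hV2 : ∀ (σ : K ≃ₐ[F] K) (x : JacK H K), Vg H σ (Vg H σ x) = x := by
    intro σ x
    rw [← hmul, hexp, Vg_one]
  have hcm : ∀ σ τ : K ≃ₐ[F] K, σ * τ = τ * σ := by
    intro σ τ
    have h2 : ∀ g : K ≃ₐ[F] K, g⁻¹ = g := fun g => inv_eq_of_mul_eq_one_left (hexp g)
    calc σ * τ = (σ * τ)⁻¹ := (h2 _).symm
      _ = τ⁻¹ * σ⁻¹ := mul_inv_rev _ _
      _ = τ * σ := by rw [h2, h2]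
  have hcomm : ∀ (σ τ : K ≃ₐ[F] K) (x : JacK H K), Vg H σ (Vg H τ x) = Vg H τ (Vg H σ x) := by
    intro σ τ x
    rw [← hmul, ← hmul, hcm]
  have h1 := rank_eig (Vg (K := K) H) hV2 hcomm
  -- for every character an index
  have hch : ∀ χ : (K ≃ₐ[F] K) → ℤˣ, (∀ σ τ, χ (σ * τ) = χ σ * χ τ) →
      ∃ (i : Fin m) (s : K), s ≠ 0 ∧ s ^ 2 = algebraMap F K (d i) ∧
        ∀ σ : K ≃ₐ[F] K, σ s = ((χ σ : ℤ) : K) * s := by
    intro χ hχ
    obtain ⟨s, hs0, hs⟩ := ex_s χ hχ
    obtain ⟨c, hc⟩ := sq_fix χ s hs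
    obtain ⟨i, t, hit⟩ := hcl s c hs0 hc
    have ht : t ≠ 0 := by
      rintro rfl
      rw [hit] at hc
      simp at hc
      exact hs0 hc
    have ht' : algebraMap F K t ≠ 0 := by
      rw [Ne, map_eq_zero]
      exact ht
    refine ⟨i, s / algebraMap F K t, div_ne_zero hs0 ht', ?_, ?_⟩
    · rw [div_pow, hc, hit, map_mul, map_pow]
      field_simp
    · intro σ
      rw [map_div₀, hs, σ.commutes, mul_div_assoc]
  have hne : Nonempty (Fin m) := by
    obtain ⟨i, _⟩ := hcl 1 1 one_ne_zero (by simp)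
    exact ⟨i⟩
  choose! ix sx hsx0 hsx2 hsx using hch
  let S : Finset ((K ≃ₐ[F] K) → ℤˣ) := univ.filter (fun χ => ∀ σ τ, χ (σ * τ) = χ σ * χ τ)
  have h2 : ∑ χ : (K ≃ₐ[F] K) → ℤˣ, Module.rank ℤ (eig (Vg H) univ χ) =
      ∑ χ ∈ S, Module.rank ℤ (eig (Vg H) univ χ) := by
    symm
    apply Finset.sum_subset (Finset.subset_univ _)
    intro χ _ hχ
    refine rank_nochar (Vg H) hmul χ (fun h => hχ ?_)
    exact Finset.mem_filter.2 ⟨Finset.mem_univ _, h⟩
  have h4 : Set.InjOn ix S := by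
    intro χ hχ χ' hχ' he
    have k1 := (Finset.mem_filter.1 hχ).2
    have k2 := (Finset.mem_filter.1 hχ').2
    have e1 := hsx2 χ k1
    have e2 := hsx2 χ' k2
    rw [he, ← e2] at e1
    have e3 := sq_eq_sq_iff_eq_or_eq_neg.1 e1
    funext σ
    have e4 := hsx χ k1 σ
    have e5 := hsx χ' k2 σ
    have e6 : ((χ σ : ℤ) : K) * sx χ' = ((χ' σ : ℤ) : K) * sx χ' := by
      rcases e3 with e3 | e3
      · rw [← e3, ← e4, e3, e5]
      · rw [e3, map_neg] at e4
        rw [← e5]
        linear_combination e4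
    have e7 : ((χ σ : ℤ) : K) = ((χ' σ : ℤ) : K) := mul_right_cancel₀ (hsx0 χ' k2) e6
    have e8 : (χ σ : ℤ) = (χ' σ : ℤ) := by exact_mod_cast e7
    exact Units.ext e8
  refine ⟨fun i => ∑ χ ∈ S.filter (fun χ => ix χ = i), Module.finrank ℤ (eig (Vg H) univ χ), ?_, ?_⟩
  · have h5 : ((Module.finrank ℤ (JacK H K) : ℕ) : Cardinal) ≤
        ((∑ χ ∈ S, Module.finrank ℤ (eig (Vg H) univ χ) : ℕ) : Cardinal) := by
      rw [Module.finrank_eq_rank, Nat.cast_sum]
      refine h1.trans ?_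
      rw [h2]
      exact Finset.sum_le_sum fun χ _ => by rw [Module.finrank_eq_rank]
    have h6 := Nat.cast_le.1 h5
    refine h6.trans ?_
    rw [Finset.sum_fiberwise]
  · intro i hfin
    beta_reduce
    rcases (S.filter (fun χ => ix χ = i)).eq_empty_or_nonempty with h0 | ⟨χ, hχ⟩
    · rw [h0, Finset.sum_empty, pow_zero]
      haveI := hfin
      haveI : Nonempty (QuotK (H.twist (d i)) F 2) := ⟨QuotientAddGroup.mk 0⟩
      exact Nat.one_le_iff_ne_zero.2 Nat.card_pos.ne'
    · have h5 : S.filter (fun χ => ix χ = i) = {χ} := by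
        refine Finset.eq_singleton_iff_unique_mem.2 ⟨hχ, fun χ' hχ' => ?_⟩
        rw [Finset.mem_filter] at hχ hχ'
        exact h4 hχ'.1 hχ.1 (hχ'.2.trans hχ.2.symm)
      rw [h5, Finset.sum_singleton]
      obtain ⟨hχS, hχi⟩ := Finset.mem_filter.1 hχ
      have k1 := (Finset.mem_filter.1 hχS).2
      haveI : HF (pol (H.twist (d i)) (AlgebraicClosure K)) := hf_pol (htw i) _
      haveI : HF (pol (H.twist (d i)) (AlgebraicClosure F)) := hf_pol (htw i) _
      have e1 := hsx2 χ k1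
      rw [hχi] at e1
      obtain ⟨φ, hφ⟩ := exists_surj H (hd i) χ e1 (hsx χ k1)
      exact two_pow_le φ hφ hfin

end Pool.Agent.Q149.ESJ
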