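import Pool.Agent.Q161.ESJ.Stm1

/-!
# Project ESJ (helper161), job MQJ, part 1: the isomorphism of the twist and the map of the class groups
-/

set_option autoImplicit false
set_option linter.unusedSectionVars false
set_option linter.style.haveILetI false

namespace Pool.Agent.Q149.ESJ

open Polynomial
open Pool.Agent.Y723.HJ (CR OddM HF cl cl_def cl_surj cl_bar bar mapR clmap clmap_cl clmap_comp clmap_id mapR_inj)

/-! ### maps of class groups -/

section chom

variable {A B E : Type} [Field A] [Field B] [Field E] {f : A[X]} {f' : B[X]} {f'' : E[X]}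

/-- the homomorphism of the class groups -/
noncomputable def chom [OddM f] [OddM f'] (g : CR f →+* CR f') (hg : Function.Injective g) :
    ClassGroup (CR f) →* ClassGroup (CR f') :=
  letI : Algebra (CR f) (CR f') := g.toAlgebra
  haveI : FaithfulSMul (CR f) (CR f') := (faithfulSMul_iff_algebraMap_injective _ _).2 hg
  ClassGroup.extendedHom (CR f) (CR f')

theorem map_ne' {g : CR f →+* CR f'} (hg : Function.Injective g) {I : Ideal (CR f)} (hI : I ≠ ⊥) :
    I.map g ≠ ⊥ := by
  intro h0
  rw [Ideal.map_eq_bot_iff_of_injective hg] at h0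
  exact hI h0

theorem chom_cl [HF f] [HF f'] (g : CR f →+* CR f') (hg : Function.Injective g) {I : Ideal (CR f)}
    (hI : I ≠ ⊥) : chom g hg (cl I) = cl (I.map g) := by
  letI : Algebra (CR f) (CR f') := g.toAlgebra
  haveI : FaithfulSMul (CR f) (CR f') := (faithfulSMul_iff_algebraMap_injective _ _).2 hg
  rw [cl_def hI, cl_def (map_ne' hg hI)]
  exact ClassGroup.extendedHom_mk0 (CR f) (CR f') _

theorem chom_comp [HF f] [HF f'] [HF f''] (g : CR f →+* CR f') (hg : Function.Injective g)
    (g' : CR f' →+* CR f'') (hg' : Function.Injective g') (k : CR f →+* CR f'') (hk : Function.Injective k)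
    (h : g'.comp g = k) (c : ClassGroup (CR f)) : chom g' hg' (chom g hg c) = chom k hk c := by
  obtain ⟨I, hI, rfl⟩ := cl_surj c
  rw [chom_cl g hg hI, chom_cl g' hg' (map_ne' hg hI), chom_cl k hk hI, Ideal.map_map, h]

theorem chom_id [HF f] (g : CR f →+* CR f) (hg : Function.Injective g) (h : g = RingHom.id _)
    (c : ClassGroup (CR f)) : chom g hg c = c := by
  obtain ⟨I, hI, rfl⟩ := cl_surj c
  rw [chom_cl g hg hI, h, Ideal.map_id]

theorem chom_star [HF f] (g : CR f →+* CR f) (hg : Function.Injective g) (h : g = starRingEnd (CR f))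
    (c : ClassGroup (CR f)) : chom g hg c = c⁻¹ := by
  obtain ⟨I, hI, rfl⟩ := cl_surj c
  rw [chom_cl g hg hI, ← cl_bar hI, h]
  rfl

end chom

/-! ### the twist -/

section tw

variable {L M : Type} [Field L] [Field M] {f f' : L[X]}

/-- `x ↦ a x`, `y ↦ c y` -/
noncomputable def tw (a c : L) (h : f'.comp (C a * X) = C (c ^ 2) * f) : CR f' →+* CR f where
  toFun z := ⟨z.re.comp (C a * X), C c * z.im.comp (C a * X)⟩
  map_zero' := by
    refine QuadraticAlgebra.ext ?_ ?_
    · simp only [QuadraticAlgebra.re_zero, zero_comp]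
    · simp only [QuadraticAlgebra.im_zero, zero_comp, mul_zero]
  map_one' := by
    refine QuadraticAlgebra.ext ?_ ?_
    · simp only [QuadraticAlgebra.re_one, one_comp]
    · simp only [QuadraticAlgebra.im_one, zero_comp, mul_zero]
  map_add' z w := by
    refine QuadraticAlgebra.ext ?_ ?_
    · simp only [QuadraticAlgebra.re_add, add_comp]
    · simp only [QuadraticAlgebra.im_add, add_comp, mul_add]
  map_mul' z w := by
    refine QuadraticAlgebra.ext ?_ ?_
    · simp only [QuadraticAlgebra.re_mul, add_comp, mul_comp, h, C_pow]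
      ring
    · simp only [QuadraticAlgebra.im_mul, add_comp, mul_comp, zero_comp]
      ring

theorem tw_re (a c : L) (h : f'.comp (C a * X) = C (c ^ 2) * f) (z : CR f') :
    (tw a c h z).re = z.re.comp (C a * X) := rfl

theorem tw_im (a c : L) (h : f'.comp (C a * X) = C (c ^ 2) * f) (z : CR f') :
    (tw a c h z).im = C c * z.im.comp (C a * X) := rfl

theorem comp_inv {a a' : L} (h : a * a' = 1) (p : L[X]) : (p.comp (C a * X)).comp (C a' * X) = p := by
  rw [comp_assoc, mul_comp, C_comp, X_comp, ← mul_assoc, ← C_mul, h, C_1, one_mul, comp_X]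

theorem tw_inv {a a' c c' : L} (ha : a * a' = 1) (hc : c * c' = 1) (h : f'.comp (C a * X) = C (c ^ 2) * f)
    (h' : f.comp (C a' * X) = C (c' ^ 2) * f') : (tw a' c' h').comp (tw a c h) = RingHom.id _ := by
  ext1 z
  refine QuadraticAlgebra.ext ?_ ?_
  · rw [RingHom.comp_apply, tw_re, tw_re, comp_inv ha]
    rfl
  · rw [RingHom.comp_apply, tw_im, tw_im, mul_comp, C_comp, comp_inv ha, ← mul_assoc, ← C_mul, mul_comm c' c, hc,
      C_1, one_mul]
    rfl

theorem tw_symm {a a' c c' : L} (ha : a * a' = 1) (hc : c * c' = 1) (h : f'.comp (C a * X) = C (c ^ 2) * f) :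
    f.comp (C a' * X) = C (c' ^ 2) * f' := by
  have h1 : (C (c ^ 2) * f).comp (C a' * X) = f' := by rw [← h, comp_inv ha]
  rw [mul_comp, C_comp] at h1
  rw [← h1, ← mul_assoc, ← C_mul, ← mul_pow, mul_comm c' c, hc, one_pow, C_1, one_mul]

theorem tw_inj {a c : L} (ha : a ≠ 0) (hc : c ≠ 0) (h : f'.comp (C a * X) = C (c ^ 2) * f) :
    Function.Injective (tw a c h) := by
  intro z w hzw
  have h1 := tw_inv (mul_inv_cancel₀ ha) (mul_inv_cancel₀ hc) h
    (tw_symm (mul_inv_cancel₀ ha) (mul_inv_cancel₀ hc) h)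
  have h2 := congrArg (tw a⁻¹ c⁻¹ (tw_symm (mul_inv_cancel₀ ha) (mul_inv_cancel₀ hc) h)) hzw
  rw [← RingHom.comp_apply, ← RingHom.comp_apply, h1] at h2
  exact h2

/-- the maps of the coefficients -/
theorem tw_map {g g' : M[X]} (τ : L →+* M) (hf : f.map τ = g) (hf' : f'.map τ = g') {a c : L}
    (h : f'.comp (C a * X) = C (c ^ 2) * f) (h' : g'.comp (C (τ a) * X) = C (τ c ^ 2) * g) :
    (mapR τ hf).comp (tw a c h) = (tw (τ a) (τ c) h').comp (mapR τ hf') := by
  ext1 z
  refine QuadraticAlgebra.ext ?_ ?_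
  · show (z.re.comp (C a * X)).map τ = (z.re.map τ).comp (C (τ a) * X)
    rw [Polynomial.map_comp, Polynomial.map_mul, map_C, map_X]
  · show (C c * z.im.comp (C a * X)).map τ = C (τ c) * (z.im.map τ).comp (C (τ a) * X)
    rw [Polynomial.map_mul, Polynomial.map_comp, Polynomial.map_mul, map_C, map_C, map_X]

theorem tw_map' {g g' : M[X]} (τ : L →+* M) (hf : f.map τ = g) (hf' : f'.map τ = g') {a c : L} {a' c' : M}
    (h : f'.comp (C a * X) = C (c ^ 2) * f) (h' : g'.comp (C a' * X) = C (c' ^ 2) * g) (ha : τ a = a')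
    (hc : τ c = c') :
    (mapR τ hf).comp (tw a c h) = (tw a' c' h').comp (mapR τ hf') := by
  subst ha hc
  exact tw_map τ hf hf' h h'

theorem tw_neg {a c : L} (h : f'.comp (C a * X) = C (c ^ 2) * f) (h' : f'.comp (C a * X) = C ((-c) ^ 2) * f) :
    tw a (-c) h' = (starRingEnd (CR f)).comp (tw a c h) := by
  ext1 z
  refine QuadraticAlgebra.ext ?_ ?_
  · show z.re.comp (C a * X) = (star (tw a c h z)).re
    rw [QuadraticAlgebra.re_star, zero_mul, add_zero]
    rfl
  · show C (-c) * z.im.comp (C a * X) = (star (tw a c h z)).im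
    rw [QuadraticAlgebra.im_star, C_neg, neg_mul]
    rfl

end tw

end Pool.Agent.Q149.ESJ
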